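import Pool.Agent.Helper11U.From
import Pool.Agent.Helper11U.Blocks

/-!
# Deligne's conjecture on critical values and the dimension

`E` is a number field and `C` the category of motives for absolute Hodge cycles over `ℚ` with coefficients
in `E`. For a separated scheme `X` of finite type over `ℚ` the object `G i w X` of `C` is the graded piece of
weight `w` of the cohomology `H^i_c(X) ⊗ E` with compact support; for smooth proper `X` the object `G i i X`
is `H^i(X) ⊗ E`. The affine hypersurfaces `T(x, y, z) = 1`, for trilinear forms `T` over `ℚ`, are smooth and
of arbitrary dimension, also if one of the three blocks of variables has few elements.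
-/

set_option autoImplicit false

open CategoryTheory CategoryTheory.Limits AlgebraicGeometry
open Pool.Agent.Helper11U Pool.Agent.Y116.UV Pool.Agent.Z125.UN Pool.Agent.Q282.UK
  Pool.Agent.Q282.UZ

universe v u

namespace Pool.Agent.Results.MP_100fe7_nt.Dimension

/-- **Theorem.** For `d = 0, 1, 2, …` and `d = ∞`: Deligne's conjecture is true for all direct summands of the
motives `H^i(X) ⊗ E` of the smooth proper schemes `X` over `ℚ` of dimension at most `d` if and only if it is
true for all direct summands of the graded pieces of `H^i_c(V) ⊗ E`, for the hypersurfaces
`V : T(x, y, z) = 1` of all trilinear forms `T` over `ℚ` such that one of the three blocks of variables has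
at most `d + 2` elements. -/
theorem result {E : Type} [Field E] [NumberField E] {C : Type u} [Category.{v} C] [Abelian C]
    (D : DelThy E C) (hD : IsDelThy D) (d : ℕ∞) :
    ForSmoothProper (fun X => ∀ i, AllSummands D.Deligne (D.G i i X)) d ↔
      ForBlocks (fun V => ∀ i w, AllSummands D.Deligne (D.G i w V)) (d + 2) := by
  simp only [summands_iff hD]
  exact class_blocks hD.gr hD.pure hD.resolution (isAdd_del hD)
    (fun i w P hP hPG hA => absurd hA (hD.point i w P hP hPG)) d

end Pool.Agent.Results.MP_100fe7_nt.Dimension
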