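import Pool.Agent.Helper11U.Del
import Pool.Agent.Helper11U.DegTri

/-!
# Deligne's conjecture for hypersurfaces of trilinear forms which are governed by plane cubics

`E` is a number field and `C` the category of motives for absolute Hodge cycles over `ℚ` with coefficients
in `E`. For a separated scheme `X` of finite type over `ℚ` the object `G i w X` of `C` is the graded piece of
weight `w` of the cohomology `H^i_c(X) ⊗ E` with compact support.

For a trilinear form `T(x, y, z) = ∑ T_{ijk} x_i y_j z_k` over `ℚ` let `V_T` be the smooth affine hypersurface
`T(x, y, z) = 1`, and `Y_T` the affine scheme of the bilinear equations `∑_{ij} T_{ijk} x_i y_j = 0`. Their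
dimensions are arbitrary. If there are at most three variables `z`, then they are assembled from the
closed subschemes of the affine plane which are defined by minors of the matrix of linear forms
`T(z)_{ij} = ∑_k T_{ijk} z_k`.
-/

set_option autoImplicit false

open CategoryTheory CategoryTheory.Limits AlgebraicGeometry
open Pool.Agent.Helper11U Pool.Agent.Y116.UV Pool.Agent.Z125.UN Pool.Agent.Q282.UK

universe v u

namespace Pool.Agent.Results.MP_100fe7_nt.PlaneCubics

/-- Deligne's conjecture is true for all direct summands of the graded pieces of `H^i_c(X) ⊗ E`. -/
def DeligneFor {E : Type} [Field E] [Algebra ℚ E] {C : Type u} [Category.{v} C] [Abelian C]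
    (D : DelThy E C) (X : Sch ℚ) : Prop :=
  ∀ i w : ℤ, AllSummands D.Deligne (D.G i w X)

/-- Deligne's conjecture for plane curves of degree at most three: it is true for the closed subschemes `X`
of the affine plane (and of the affine line) over `ℚ` all of whose equations are products of polynomials
of degree at most three. (The components of `X` of dimension one are curves of degree at most three, hence
the motives in question are direct sums of Artin motives, of motives `H^1` of elliptic curves over `ℚ`, and of
their Tate twists; the conjecture is true for elliptic curves over `ℚ` by Manin, Drinfeld and the theorem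
of Wiles, Taylor, Breuil, Conrad and Diamond; the Artin motives have no critical integers in the sense of the
question, as they have classes of type `(0, 0)`.) -/
def ForPlaneCubics {E : Type} [Field E] [Algebra ℚ E] {C : Type u} [Category.{v} C] [Abelian C]
    (D : DelThy E C) : Prop :=
  ForDeg (DeligneFor D) 2 3

/-- **Theorem.** Let `T` be a trilinear form over `ℚ`. If there are at most three variables `z` and every
minor of the matrix of linear forms `T(z)` is a product of polynomials of degree at most three, or if two
of the three blocks of variables have at most three elements, then Deligne's conjecture is true for all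
direct summands of the graded pieces of `H^i_c ⊗ E` of the hypersurface `T(x, y, z) = 1` and of the
affine scheme of the bilinear equations `T_k(x, y) = 0`. -/
theorem result {E : Type} [Field E] [NumberField E] {C : Type u} [Category.{v} C] [Abelian C]
    (D : DelThy E C) (hD : IsDelThy D) (hE : ForPlaneCubics D) (a b c : ℕ)
    (T : Fin a → Fin b → Fin c → ℚ)
    (hT : (c ≤ 3 ∧ SmallMinors 3 T) ∨ (a ≤ 3 ∧ b ≤ 3) ∨ (a ≤ 3 ∧ c ≤ 3) ∨ (b ≤ 3 ∧ c ≤ 3)) :
    DeligneFor D (hypS T) ∧ DeligneFor D (bilS T) := by
  have h0 : DeligneFor D = fun X => ∀ i w, AllSimple D.Deligne (D.G i w X) :=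
    funext fun X => by simp only [DeligneFor, summands_iff hD]
  have hB : Bnd True (DeligneFor D) := by
    rw [h0]
    exact bnd_del hD
  have h1 : DeligneFor D (hypS T) := by
    rcases hT with ⟨h1, h2⟩ | ⟨h1, h2⟩ | ⟨h1, h2⟩ | ⟨h1, h2⟩
    · exact minors_tri hB hE T h1 h2
    · exact two_blocks hB hE T (Or.inl ⟨h1, Or.inl h2⟩)
    · exact two_blocks hB hE T (Or.inl ⟨h1, Or.inr h2⟩)
    · exact two_blocks hB hE T (Or.inr (Or.inl ⟨h1, Or.inr h2⟩))
  exact ⟨h1, (bil_iff hB T).mpr h1⟩

end Pool.Agent.Results.MP_100fe7_nt.PlaneCubics
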