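import Pool.Agent.Helper11U.Del
import Pool.Agent.Helper11U.Terms

/-!
# Deligne's conjecture for hypersurfaces of trilinear forms which are governed by trinomial curves

`E` is a number field and `C` the category of motives for absolute Hodge cycles over `ℚ` with coefficients
in `E`. For a separated scheme `X` of finite type over `ℚ` the object `G i w X` of `C` is the graded piece of
weight `w` of the cohomology `H^i_c(X) ⊗ E` with compact support.

For a trilinear form `T(x, y, z) = ∑ T_{ijk} x_i y_j z_k` over `ℚ` let `V_T` be the smooth affine hypersurface
`T(x, y, z) = 1`, and `Y_T` the affine scheme of the bilinear equations `∑_{ij} T_{ijk} x_i y_j = 0`. Their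
dimensions are arbitrary. If there are at most three variables `z`, then they are assembled from the
closed subschemes of the affine plane which are defined by minors of the matrix of linear forms
`T(z)_{ij} = ∑_k T_{ijk} z_k`.

Example: the matrix with the rows `(0, z_0, z_1, z_2)`, `(z_0, z_1, 0, 0)`, `(z_1, 0, z_2, 0)`,
`(z_2, 0, 0, z_0)` has the determinant `-(z_0^3 z_2 + z_1^3 z_0 + z_2^3 z_1)` (the quartic of Klein), and all
its minors are products of polynomials with at most three terms.
-/

set_option autoImplicit false

open CategoryTheory CategoryTheory.Limits AlgebraicGeometry
open Pool.Agent.Helper11U Pool.Agent.Y116.UV Pool.Agent.Z125.UN Pool.Agent.Q282.UK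

universe v u

namespace Pool.Agent.Results.MP_100fe7_nt.PlaneTrinomials

/-- Deligne's conjecture is true for all direct summands of the graded pieces of `H^i_c(X) ⊗ E`. -/
def DeligneFor {E : Type} [Field E] [Algebra ℚ E] {C : Type u} [Category.{v} C] [Abelian C]
    (D : DelThy E C) (X : Sch ℚ) : Prop :=
  ∀ i w : ℤ, AllSummands D.Deligne (D.G i w X)

/-- Deligne's conjecture for plane trinomial curves: it is true for the closed subschemes `X` of the affine
plane (and of the affine line) over `ℚ` all of whose equations are products of polynomials with at most
three terms. (The components of `X` of dimension one are lines or are dominated by twisted Fermat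
curves `1 + β s^n + γ t^n = 0`, hence the motives in question are direct sums of Artin motives, of motives
which after an extension of the coefficients are induced by algebraic Hecke characters of cyclotomic
fields (Jacobi sums), and of their Tate twists; the conjecture is true for the latter by Blasius; the Artin
motives have no critical integers in the sense of the question, as they have classes of type
`(0, 0)`.) -/
def ForPlaneTrinomials {E : Type} [Field E] [Algebra ℚ E] {C : Type u} [Category.{v} C] [Abelian C]
    (D : DelThy E C) : Prop :=
  ForTerms (DeligneFor D) 2 3

/-- **Theorem.** Let `T` be a trilinear form over `ℚ` with at most three variables `z` such that every minor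
of the matrix of linear forms `T(z)` is a product of polynomials with at most three terms. Then Deligne's
conjecture is true for all direct summands of the graded pieces of `H^i_c ⊗ E` of the hypersurface
`T(x, y, z) = 1` and of the affine scheme of the bilinear equations `T_k(x, y) = 0`. -/
theorem result {E : Type} [Field E] [NumberField E] {C : Type u} [Category.{v} C] [Abelian C]
    (D : DelThy E C) (hD : IsDelThy D) (hE : ForPlaneTrinomials D) (a b c : ℕ)
    (T : Fin a → Fin b → Fin c → ℚ) (hc : c ≤ 3) (hT : FewTerms 3 T) :
    DeligneFor D (hypS T) ∧ DeligneFor D (bilS T) := by
  have h0 : DeligneFor D = fun X => ∀ i w, AllSimple D.Deligne (D.G i w X) :=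
    funext fun X => by simp only [DeligneFor, summands_iff hD]
  have hB : Bnd True (DeligneFor D) := by
    rw [h0]
    exact bnd_del hD
  have h1 : DeligneFor D (hypS T) := terms_tri hB hE T hc hT
  exact ⟨h1, (bil_iff hB T).mpr h1⟩

end Pool.Agent.Results.MP_100fe7_nt.PlaneTrinomials
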