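import Pool.Agent.Helper11U.From

/-!
# Deligne's conjecture on critical values and cubic hypersurfaces

`E` is a number field and `C` the category of motives for absolute Hodge cycles over `ℚ` with coefficients
in `E`. For a separated scheme `X` of finite type over `ℚ` the object `G i w X` of `C` is the graded piece of
weight `w` of the cohomology `H^i_c(X) ⊗ E` with compact support; for smooth proper `X` the object `G i i X`
is `H^i(X) ⊗ E`.

For finite sequences of sets `E_1, …, E_c` of at most three pairs `(i, j)` the affine hypersurfaces
`∑_l z_l ∑_{(i, j) ∈ E_l} x_i y_j = 1` over `ℚ` are smooth. The proof shows that every simple motive is, up to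
Tate twists, a direct summand of a graded piece of `H^i_c ⊗ E` of one of them.
-/

set_option autoImplicit false

open CategoryTheory CategoryTheory.Limits AlgebraicGeometry
open Pool.Agent.Helper11U Pool.Agent.Y116.UV Pool.Agent.Z125.UN Pool.Agent.Q282.UK
  Pool.Agent.Q282.UZ

universe v u

namespace Pool.Agent.Results.MP_100fe7_nt.Universality

/-- **Theorem.** Deligne's conjecture is true for all motives over `ℚ` with coefficients in `E` if and only
if it is true for all direct summands of the graded pieces of `H^i_c(V) ⊗ E` of the hypersurfaces
`V : ∑_l z_l ∑_{(i, j) ∈ E_l} x_i y_j = 1`, for all finite sequences of sets `E_l` of at most three pairs. -/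
theorem result {E : Type} [Field E] [NumberField E] {C : Type u} [Category.{v} C] [Abelian C]
    (D : DelThy E C) (hD : IsDelThy D) :
    (∀ M : C, D.Deligne M) ↔
      ∀ (a b c : ℕ) (S : Fin c → Finset (Fin a × Fin b)), (∀ l, (S l).card ≤ 3) →
        ∀ i w : ℤ, AllSummands D.Deligne (D.G i w (cubS ℚ S)) := by
  simp only [summands_iff hD]
  refine ⟨fun h a b c S _ i w P _ _ => h P, fun h => ?_⟩
  refine (all_iff hD).mpr fun P hP => ?_
  obtain ⟨X, i, n, hX, -, -, hs⟩ := hD.generated P hP
  have h1 := (short_iff short_rat (bnd_del hD)).mpr h X hX i i _ (simple_iter hD hP n) hs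
  exact (del_iter hD P n).mp h1

end Pool.Agent.Results.MP_100fe7_nt.Universality
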